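import Mathlib

/-!
# MP_31c3fe_co: braid graphs in type Λ have geodetic number two
-/

namespace Pool.Agent.Results.MP_31c3fe_co.GeodeticNumberTwo

/-! ## Definitions used in the statement -/

section Defs

variable {B : Type*}

/-- A Coxeter matrix is of type `Λ` if it is simply laced and its Coxeter graph has no triangle. -/
structure TypeLambda (M : CoxeterMatrix B) : Prop where
  simplyLaced : ∀ s t, s ≠ t → M s t = 2 ∨ M s t = 3
  triangleFree : ∀ s t u, ¬ (M s t = 3 ∧ M t u = 3 ∧ M s u = 3)

/-- A single braid move: a consecutive factor `sts` is replaced by `tst`, where `m(s,t) = 3`. -/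
def BraidMove (M : CoxeterMatrix B) (α β : List B) : Prop :=
  ∃ (x y : List B) (s t : B), M s t = 3 ∧ α = x ++ [s, t, s] ++ y ∧ β = x ++ [t, s, t] ++ y

/-- The braid class of a word. -/
def braidClass (M : CoxeterMatrix B) (α : List B) : Set (List B) :=
  {β | Relation.ReflTransGen (BraidMove M) α β}

/-- The braid graph of a word: its vertices are the words of the braid class, two (distinct) words
being adjacent when they differ by a single braid move. -/
def braidGraph (M : CoxeterMatrix B) (α : List B) : SimpleGraph (braidClass M α) :=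
  SimpleGraph.fromRel (fun β γ => BraidMove M β.1 γ.1)

/-- `interval G u v` is the set of vertices lying on at least one shortest `u`-`v` path. -/
def interval {V : Type*} (G : SimpleGraph V) (u v : V) : Set V :=
  {w | ∃ p : G.Walk u v, p.length = G.dist u v ∧ w ∈ p.support}

/-- The geodetic closure of `X`. -/
def geodeticClosure {V : Type*} (G : SimpleGraph V) (X : Set V) : Set V :=
  {w | ∃ u ∈ X, ∃ v ∈ X, w ∈ interval G u v}

/-- The geodetic number: the least size of a set of vertices whose geodetic closure is everything. -/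
noncomputable def geodeticNumber {V : Type*} (G : SimpleGraph V) : ℕ :=
  sInf {k | ∃ X : Finset V, X.card = k ∧ geodeticClosure G (X : Set V) = Set.univ}

end Defs

/-! ## The abstract combinatorics of braid moves -/

section Abstract

variable {L : Type*}

def mv (w : ℕ → L) (p : ℕ) : ℕ → L := fun k =>
  if k = p ∨ k = p + 2 then w (p + 1) else if k = p + 1 then w p else w k

lemma mv_left (w : ℕ → L) (p : ℕ) : mv w p p = w (p + 1) := by simp [mv]
lemma mv_right (w : ℕ → L) (p : ℕ) : mv w p (p + 2) = w (p + 1) := by simp [mv]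
lemma mv_center (w : ℕ → L) (p : ℕ) : mv w p (p + 1) = w p := by simp [mv]
lemma mv_other (w : ℕ → L) {p k : ℕ} (h1 : k ≠ p) (h2 : k ≠ p + 1) (h3 : k ≠ p + 2) :
    mv w p k = w k := by simp [mv, h1, h2, h3]

def Act (E : L → L → Prop) (w : ℕ → L) (p : ℕ) : Prop := w p = w (p + 2) ∧ E (w p) (w (p + 1))

def Mv (E : L → L → Prop) (w w' : ℕ → L) : Prop := ∃ p, Act E w p ∧ w' = mv w p

def Valid (J : Finset ℕ) (Lm Rm : ℕ → Bool) (b : ℕ → Bool) : Prop :=
  ∀ p ∈ J, p + 2 ∈ J → b p = Lm p ∨ b (p + 2) = Rm p

structure Frame (E : L → L → Prop) (C : Set (ℕ → L)) (N : ℕ) where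
  J : Finset ℕ
  c : ℕ → Bool → L
  Lm : ℕ → Bool
  Rm : ℕ → Bool
  W : (ℕ → Bool) → ℕ → L
  hN : ∀ p ∈ J, p < N
  sep : ∀ p ∈ J, p + 1 ∉ J
  hE : ∀ p ∈ J, ∀ x, E (c p x) (c p (!x))
  mid : ∀ p ∈ J, p + 2 ∈ J → c p (!Lm p) = c (p + 2) (!Rm p)
  center : ∀ b, Valid J Lm Rm b → ∀ p ∈ J, W b (p + 1) = c p (b p)
  right : ∀ b, Valid J Lm Rm b → ∀ p ∈ J, (p + 2 ∈ J → b (p + 2) = Rm p) →
    W b (p + 2) = c p (!b p)
  left : ∀ b, Valid J Lm Rm b → ∀ p ∈ J, (∀ q ∈ J, q + 2 = p → b q = Lm q) →
    W b p = c p (!b p)
  loc : ∀ a b, Valid J Lm Rm a → Valid J Lm Rm b → ∀ k,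
    (∀ p ∈ J, p ≤ k → k ≤ p + 2 → a p = b p) → W a k = W b k
  inC : ∀ b, Valid J Lm Rm b → W b ∈ C

lemma bool_ne {x y : Bool} (h : x ≠ y) : x = !y := by
  cases x <;> cases y <;> simp_all

variable {E : L → L → Prop} {C : Set (ℕ → L)} {N : ℕ}

/-- The standing assumptions on the class `C`. -/
structure GoodClass (E : L → L → Prop) (C : Set (ℕ → L)) (N : ℕ) : Prop where
  symm : ∀ a b, E a b → E b a
  tri : ∀ a b c, E a b → E b c → E a c → False
  closed : ∀ w ∈ C, ∀ w', Mv E w w' → w' ∈ C
  conn : ∀ w ∈ C, ∀ w' ∈ C, Relation.ReflTransGen (Mv E) w w'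
  good : ∀ w ∈ C, ∀ p, w p = w (p + 2) → w (p + 1) = w (p + 3) → E (w p) (w (p + 1)) → False
  bdd : ∀ w ∈ C, ∀ p, Act E w p → p < N
  ne : C.Nonempty

lemma GoodClass.irr (H : GoodClass E C N) {a b : L} (h : E a b) (hab : a = b) : False := by
  subst hab
  exact H.tri _ _ _ h h h

/-- An active shadow outside `J` has no neighbouring shadow in `J`. -/
lemma Frame.noadj (H : GoodClass E C N) (F : Frame E C N) {b : ℕ → Bool}
    (hb : Valid F.J F.Lm F.Rm b) {r : ℕ} (hact : Act E (F.W b) r) :
    r + 1 ∉ F.J ∧ ∀ p ∈ F.J, p + 1 ≠ r := by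
  obtain ⟨h1, h2⟩ := hact
  constructor
  · intro hp
    have hcen := F.center b hb _ hp
    have hEp := F.hE _ hp (b (r + 1))
    by_cases hopen : ∀ q ∈ F.J, q + 2 = r + 1 → b q = F.Lm q
    · have hl := F.left b hb _ hp hopen
      set b' : ℕ → Bool := fun k => if r + 3 ≤ k then F.Rm (k - 2) else b k with hb'
      have hv : Valid F.J F.Lm F.Rm b' := by
        intro q hq hq2
        by_cases hqr : r + 1 ≤ q
        · right
          have : r + 3 ≤ q + 2 := by omega
          simp only [hb', this, if_true, Nat.add_sub_cancel]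
        · have e1 : ¬ r + 3 ≤ q := by omega
          have e2 : ¬ r + 3 ≤ q + 2 := by omega
          simp only [hb', e1, e2, if_false]
          exact hb q hq hq2
      have hbr : b' (r + 1) = b (r + 1) := by simp [hb']
      have hr3 : F.W b' (r + 1 + 2) = F.c (r + 1) (!b' (r + 1)) := by
        apply F.right b' hv _ hp
        intro _
        have : r + 3 ≤ r + 1 + 2 := by omega
        simp [hb', this]
      rw [hbr] at hr3
      have hloc : ∀ k, k ≤ r + 2 → F.W b' k = F.W b k := by
        intro k hk
        apply F.loc b' b hv hb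
        intro q hq hqk hkq
        have : ¬ r + 3 ≤ q := by omega
        simp only [hb', this, if_false]
      have e0 := hloc r (by omega)
      have e1 := hloc (r + 1) (by omega)
      have e2 := hloc (r + 2) (by omega)
      have e3 : F.W b' (r + 3) = F.c (r + 1) (!b (r + 1)) := hr3
      have hcen' : F.W b (r + 2) = F.c (r + 1) (b (r + 1)) := hcen
      apply H.good _ (F.inC b' hv) r
      · rw [e0, e2]; exact h1
      · rw [e1, e3]; exact hl
      · rw [e0, e1]; exact h2
    · push Not at hopen
      obtain ⟨q, hq, hq2, hqL⟩ := hopen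
      have hv := hb q hq (by rw [hq2]; exact hp)
      rw [hq2] at hv
      have hR : b (r + 1) = F.Rm q := by tauto
      have hcq := F.center b hb q hq
      have hmid := F.mid q hq (by rw [hq2]; exact hp)
      rw [hq2] at hmid
      have hqr : q + 1 = r := by omega
      rw [hqr, bool_ne hqL, hmid, ← hR, h1] at hcq
      have hcen' : F.W b (r + 2) = F.c (r + 1) (b (r + 1)) := hcen
      rw [hcen'] at hcq
      exact H.irr hEp hcq
  · rintro p hp rfl
    have hcen := F.center b hb _ hp
    have hEp := F.hE _ hp (b p)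
    by_cases hopen : p + 2 ∈ F.J → b (p + 2) = F.Rm p
    · have hr := F.right b hb _ hp hopen
      set b' : ℕ → Bool := fun k => if k < p then F.Lm k else b k with hb'
      have hv : Valid F.J F.Lm F.Rm b' := by
        intro q hq hq2
        by_cases hqr : q < p
        · left
          simp [hb', hqr]
        · have e2 : ¬ q + 2 < p := by omega
          simp only [hb', hqr, e2, if_false]
          exact hb q hq hq2
      have hbp : b' p = b p := by simp [hb']
      have hl : F.W b' p = F.c p (!b' p) := by
        apply F.left b' hv _ hp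
        intro q hq hqp
        have : q < p := by omega
        simp [hb', this]
      rw [hbp] at hl
      have hloc : ∀ k, p + 1 ≤ k → F.W b' k = F.W b k := by
        intro k hk
        apply F.loc b' b hv hb
        intro q hq hqk hkq
        have : ¬ q < p := by
          intro hlt
          have : q + 1 = p := by omega
          exact F.sep q hq (by rw [this]; exact hp)
        simp only [hb', this, if_false]
      have e1 := hloc (p + 1) (by omega)
      have e2 := hloc (p + 2) (by omega)
      have e3 := hloc (p + 3) (by omega)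
      apply H.good _ (F.inC b' hv) p
      · rw [hl, e2]; exact hr.symm
      · rw [e1, e3]; exact h1
      · rw [hl, e1, hcen]; exact H.symm _ _ hEp
    · push Not at hopen
      obtain ⟨hp2, hR⟩ := hopen
      have hv := hb p hp hp2
      have hL : b p = F.Lm p := by tauto
      have hcq := F.center b hb (p + 2) hp2
      have hmid := F.mid p hp hp2
      rw [bool_ne hR, ← hmid, ← hL] at hcq
      have h1' : F.W b (p + 1) = F.W b (p + 2 + 1) := h1
      rw [hcq, hcen] at h1'
      exact H.irr hEp h1'

/-- Extending a frame by a new shadow. -/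
lemma Frame.extend (H : GoodClass E C N) (F : Frame E C N) {b0 : ℕ → Bool}
    (hb0 : Valid F.J F.Lm F.Rm b0) {r : ℕ} (hr : r ∉ F.J) (hact : Act E (F.W b0) r) :
    ∃ F' : Frame E C N, F'.J = insert r F.J := by
  obtain ⟨hr1, hrm⟩ := F.noadj H hb0 hact
  have hbdd := H.bdd _ (F.inC b0 hb0) r hact
  obtain ⟨h1, h2⟩ := hact
  set s := F.W b0 r with hs
  set t := F.W b0 (r + 1) with ht
  set J' := insert r F.J with hJ'
  set c' : ℕ → Bool → L := fun p x => if p = r then (if x then s else t) else F.c p x with hc'
  set Lm' : ℕ → Bool := fun p => if p = r then false else if p + 2 = r then b0 p else F.Lm p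
    with hLm'
  set Rm' : ℕ → Bool := fun p => if p = r then b0 (r + 2) else if p + 2 = r then false
    else F.Rm p with hRm'
  set W' : (ℕ → Bool) → ℕ → L := fun b => if b r then mv (F.W b) r else F.W b with hW'
  have hne : ∀ p ∈ F.J, p ≠ r := fun p hp h => hr (h ▸ hp)
  have hcr : ∀ x, c' r x = if x then s else t := fun x => by simp [hc']
  have hcp : ∀ p, p ≠ r → ∀ x, c' p x = F.c p x := fun p hp x => by simp [hc', hp]
  have hLr : Lm' r = false := by simp [hLm']
  have hLp2 : ∀ p, p + 2 = r → Lm' p = b0 p := fun p hp => by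
    have : p ≠ r := by omega
    simp [hLm', this, hp]
  have hLp : ∀ p, p ≠ r → p + 2 ≠ r → Lm' p = F.Lm p := fun p hp hp2 => by simp [hLm', hp, hp2]
  have hRr : Rm' r = b0 (r + 2) := by simp [hRm']
  have hRp2 : ∀ p, p + 2 = r → Rm' p = false := fun p hp => by
    have : p ≠ r := by omega
    simp [hRm', this, hp]
  have hRp : ∀ p, p ≠ r → p + 2 ≠ r → Rm' p = F.Rm p := fun p hp hp2 => by simp [hRm', hp, hp2]
  have hval : ∀ b, Valid J' Lm' Rm' b → Valid F.J F.Lm F.Rm b := by
    intro b hb p hp hp2
    have := hb p (Finset.mem_insert_of_mem hp) (Finset.mem_insert_of_mem hp2)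
    rwa [hLp p (hne p hp) (hne _ hp2), hRp p (hne p hp) (hne _ hp2)] at this
  have hWt : ∀ b, Valid F.J F.Lm F.Rm b → F.W b (r + 1) = t := by
    intro b hb
    apply F.loc b b0 hb hb0
    intro p hp hp1 hp2
    exfalso
    have h3 : p ≠ r := hne p hp
    have h4 : p + 1 ≠ r := hrm p hp
    have h5 : p ≠ r + 1 := fun h => hr1 (h ▸ hp)
    omega
  have hWr : ∀ b, Valid F.J F.Lm F.Rm b → (∀ q ∈ F.J, q + 2 = r → b q = b0 q) →
      F.W b r = s := by
    intro b hb hq
    apply F.loc b b0 hb hb0
    intro p hp hp1 hp2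
    have h3 : p ≠ r := hne p hp
    have h4 : p + 1 ≠ r := hrm p hp
    apply hq p hp
    omega
  have hWr2 : ∀ b, Valid F.J F.Lm F.Rm b → (r + 2 ∈ F.J → b (r + 2) = b0 (r + 2)) →
      F.W b (r + 2) = s := by
    intro b hb hq
    rw [h1]
    apply F.loc b b0 hb hb0
    intro p hp hp1 hp2
    have h3 : p ≠ r := hne p hp
    have h5 : p ≠ r + 1 := fun h => hr1 (h ▸ hp)
    have h6 : p = r + 2 := by omega
    rw [h6]
    apply hq
    rw [← h6]; exact hp
  have hfacts : ∀ b, Valid J' Lm' Rm' b → b r = true →
      (∀ q ∈ F.J, q + 2 = r → b q = b0 q) ∧ (r + 2 ∈ F.J → b (r + 2) = b0 (r + 2)) := by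
    intro b hb hbr
    constructor
    · intro q hq hqr
      have := hb q (Finset.mem_insert_of_mem hq) (by rw [hqr]; exact Finset.mem_insert_self _ _)
      rw [hLp2 q hqr, hRp2 q hqr, hqr, hbr] at this
      rcases this with h | h
      · exact h
      · exact absurd h (by simp)
    · intro hr2
      have := hb r (Finset.mem_insert_self _ _) (Finset.mem_insert_of_mem hr2)
      rw [hLr, hRr, hbr] at this
      rcases this with h | h
      · exact absurd h (by simp)
      · exact h
  have hW'f : ∀ b, b r = false → W' b = F.W b := fun b hb => by simp [hW', hb]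
  have hW't : ∀ b, b r = true → W' b = mv (F.W b) r := fun b hb => by simp [hW', hb]
  have hW'o : ∀ b k, k ≠ r → k ≠ r + 1 → k ≠ r + 2 → W' b k = F.W b k := by
    intro b k k1 k2 k3
    cases hbr : b r
    · rw [hW'f b hbr]
    · rw [hW't b hbr, mv_other _ k1 k2 k3]
  refine ⟨{ J := J', c := c', Lm := Lm', Rm := Rm', W := W', hN := ?_, sep := ?_, hE := ?_,
            mid := ?_, center := ?_, right := ?_, left := ?_, loc := ?_, inC := ?_ }, rfl⟩
  · intro p hp
    rcases Finset.mem_insert.1 hp with rfl | hp
    · exact hbdd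
    · exact F.hN p hp
  · intro p hp
    rw [Finset.mem_insert, not_or]
    rcases Finset.mem_insert.1 hp with rfl | hp
    · exact ⟨by omega, hr1⟩
    · exact ⟨hrm p hp, F.sep p hp⟩
  · intro p hp x
    rcases Finset.mem_insert.1 hp with rfl | hp
    · rw [hcr, hcr]
      cases x
      · simpa using H.symm _ _ h2
      · simpa using h2
    · rw [hcp p (hne p hp), hcp p (hne p hp)]
      exact F.hE p hp x
  · intro p hp hp2
    rcases Finset.mem_insert.1 hp with rfl | hp
    · have hp2' : p + 2 ∈ F.J := by
        rcases Finset.mem_insert.1 hp2 with h | h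
        · omega
        · exact h
      rw [hcr, hLr, hRr, hcp (p + 2) (by omega)]
      have := F.left b0 hb0 (p + 2) hp2' (by
        intro q hq hqp
        have : q = p := by omega
        exact absurd (this ▸ hq) hr)
      rw [← this, ← h1]
      simp
    · rcases Finset.mem_insert.1 hp2 with h | hp2'
      · rw [h, hcp p (hne p hp), hcr, hLp2 p h, hRp2 p h]
        have := F.right b0 hb0 p hp (by intro h'; rw [h] at h'; exact absurd h' hr)
        rw [← this, h]
        simp [hs]
      · rw [hcp p (hne p hp), hcp _ (hne _ hp2'), hLp p (hne p hp) (hne _ hp2'),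
          hRp p (hne p hp) (hne _ hp2')]
        exact F.mid p hp hp2'
  · intro b hb p hp
    have hb' := hval b hb
    rcases Finset.mem_insert.1 hp with rfl | hp
    · rw [hcr]
      cases hbr : b p
      · rw [hW'f b hbr, hWt b hb']; simp
      · rw [hW't b hbr, mv_center, hWr b hb' (hfacts b hb hbr).1]; simp
    · rw [hcp p (hne p hp), hW'o b (p + 1) (hrm p hp)
        (fun h => hne p hp (by omega))
        (fun h => hr1 (by have : p = r + 1 := by omega
                          exact this ▸ hp))]
      exact F.center b hb' p hp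
  · intro b hb p hp hyp
    have hb' := hval b hb
    rcases Finset.mem_insert.1 hp with rfl | hp
    · have hyp' : p + 2 ∈ F.J → b (p + 2) = b0 (p + 2) := by
        intro h
        have := hyp (Finset.mem_insert_of_mem h)
        rwa [hRr] at this
      rw [hcr]
      cases hbr : b p
      · rw [hW'f b hbr, hWr2 b hb' hyp']; simp
      · rw [hW't b hbr, mv_right, hWt b hb']; simp
    · by_cases hpr : p + 2 = r
      · have hbr : b r = false := by
          have := hyp (by rw [hpr]; exact Finset.mem_insert_self _ _)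
          rwa [hpr, hRp2 p hpr] at this
        rw [hW'f b hbr, hcp p (hne p hp)]
        exact F.right b hb' p hp (fun h => absurd (hpr ▸ h) hr)
      · have h3 : p + 1 ≠ r := hrm p hp
        have h4 : p ≠ r := hne p hp
        rw [hW'o b (p + 2) hpr (by omega) (by omega), hcp p h4]
        apply F.right b hb' p hp
        intro h
        have := hyp (Finset.mem_insert_of_mem h)
        rwa [hRp p h4 hpr] at this
  · intro b hb p hp hyp
    have hb' := hval b hb
    rcases Finset.mem_insert.1 hp with rfl | hp
    · have hyp' : ∀ q ∈ F.J, q + 2 = p → b q = b0 q := by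
        intro q hq hqp
        have := hyp q (Finset.mem_insert_of_mem hq) hqp
        rwa [hLp2 q hqp] at this
      rw [hcr]
      cases hbr : b p
      · rw [hW'f b hbr, hWr b hb' hyp']; simp
      · rw [hW't b hbr, mv_left, hWt b hb']; simp
    · by_cases hpr : p = r + 2
      · have hbr : b r = false := by
          have := hyp r (Finset.mem_insert_self _ _) hpr.symm
          rwa [hLr] at this
        rw [hW'f b hbr, hcp p (hne p hp)]
        apply F.left b hb' p hp
        intro q hq hqp
        have : q = r := by omega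
        exact absurd (this ▸ hq) hr
      · have h4 : p ≠ r := hne p hp
        have h5 : p ≠ r + 1 := fun h => hr1 (h ▸ hp)
        rw [hW'o b p h4 h5 hpr, hcp p h4]
        apply F.left b hb' p hp
        intro q hq hqp
        have := hyp q (Finset.mem_insert_of_mem hq) hqp
        rwa [hLp q (hne q hq) (by omega)] at this
  · intro a b ha hb k hyp
    have ha' := hval a ha
    have hb' := hval b hb
    have hk : F.W a k = F.W b k :=
      F.loc a b ha' hb' k (fun p hp => hyp p (Finset.mem_insert_of_mem hp))
    by_cases hkr : r ≤ k ∧ k ≤ r + 2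
    · have hab := hyp r (Finset.mem_insert_self _ _) hkr.1 hkr.2
      cases hbr : b r
      · rw [hbr] at hab
        rw [hW'f a hab, hW'f b hbr]; exact hk
      · rw [hbr] at hab
        rw [hW't a hab, hW't b hbr]
        have : k = r ∨ k = r + 1 ∨ k = r + 2 := by omega
        rcases this with rfl | rfl | rfl
        · rw [mv_left, mv_left, hWt a ha', hWt b hb']
        · rw [mv_center, mv_center, hWr a ha' (hfacts a ha hab).1, hWr b hb' (hfacts b hb hbr).1]
        · rw [mv_right, mv_right, hWt a ha', hWt b hb']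
    · rw [hW'o a k (by omega) (by omega) (by omega), hW'o b k (by omega) (by omega) (by omega)]
      exact hk
  · intro b hb
    have hb' := hval b hb
    cases hbr : b r
    · rw [hW'f b hbr]; exact F.inC b hb'
    · rw [hW't b hbr]
      apply H.closed _ (F.inC b hb')
      refine ⟨r, ⟨?_, ?_⟩, rfl⟩
      · rw [hWr b hb' (hfacts b hb hbr).1, hWr2 b hb' (hfacts b hb hbr).2]
      · rw [hWr b hb' (hfacts b hb hbr).1, hWt b hb']; exact h2

/-- There is a frame which cannot be extended. -/
lemma exists_closed_frame (H : GoodClass E C N) :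
    ∃ F : Frame E C N, ∀ b, Valid F.J F.Lm F.Rm b → ∀ r, Act E (F.W b) r → r ∈ F.J := by
  obtain ⟨w0, hw0⟩ := H.ne
  have key : ∀ d : ℕ, ∀ F : Frame E C N, N - F.J.card ≤ d →
      ∃ F : Frame E C N, ∀ b, Valid F.J F.Lm F.Rm b → ∀ r, Act E (F.W b) r → r ∈ F.J := by
    intro d
    induction d with
    | zero =>
      intro F hF
      refine ⟨F, ?_⟩
      intro b hb r hact
      by_contra hr
      obtain ⟨F', hF'⟩ := F.extend H hb hr hact
      have h1 : F'.J ⊆ Finset.range N := fun p hp => Finset.mem_range.2 (F'.hN p hp)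
      have h2 := Finset.card_le_card h1
      rw [Finset.card_range, hF', Finset.card_insert_of_notMem hr] at h2
      omega
    | succ d ih =>
      intro F hF
      by_cases hcl : ∀ b, Valid F.J F.Lm F.Rm b → ∀ r, Act E (F.W b) r → r ∈ F.J
      · exact ⟨F, hcl⟩
      · push Not at hcl
        obtain ⟨b, hb, r, hact, hr⟩ := hcl
        obtain ⟨F', hF'⟩ := F.extend H hb hr hact
        apply ih F'
        have h1 : F'.J ⊆ Finset.range N := fun p hp => Finset.mem_range.2 (F'.hN p hp)
        have h2 := Finset.card_le_card h1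
        rw [Finset.card_range] at h2
        rw [hF', Finset.card_insert_of_notMem hr] at h2 ⊢
        omega
  refine key N ⟨∅, fun _ _ => w0 0, fun _ => false, fun _ => false, fun _ => w0,
    by simp, by simp, by simp, by simp, by simp, by simp, by simp, ?_, ?_⟩ (by simp)
  · intro a b _ _ k _; rfl
  · intro b _; exact hw0

def Flippable (F : Frame E C N) (b : ℕ → Bool) (r : ℕ) : Prop :=
  (r + 2 ∈ F.J → b (r + 2) = F.Rm r) ∧ (∀ q ∈ F.J, q + 2 = r → b q = F.Lm q)

def flip (b : ℕ → Bool) (r : ℕ) : ℕ → Bool := Function.update b r (!b r)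

lemma flip_same (b : ℕ → Bool) (r : ℕ) : flip b r r = !b r := by simp [flip]
lemma flip_ne (b : ℕ → Bool) {r k : ℕ} (h : k ≠ r) : flip b r k = b k := by simp [flip, h]

lemma flip_valid (F : Frame E C N) {b : ℕ → Bool} (hb : Valid F.J F.Lm F.Rm b) {r : ℕ}
    (hf : Flippable F b r) : Valid F.J F.Lm F.Rm (flip b r) := by
  intro p hp hp2
  by_cases h1 : p = r
  · subst h1
    right
    rw [flip_ne b (by omega)]
    exact hf.1 hp2
  · by_cases h2 : p + 2 = r
    · left
      rw [flip_ne b h1]
      exact hf.2 p hp h2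
    · rw [flip_ne b h1, flip_ne b h2]
      exact hb p hp hp2

lemma flip_act (F : Frame E C N) (H : GoodClass E C N) {b : ℕ → Bool}
    (hb : Valid F.J F.Lm F.Rm b) {r : ℕ} (hr : r ∈ F.J)
    (hf : Flippable F b r) : Act E (F.W b) r ∧ F.W (flip b r) = mv (F.W b) r := by
  have hl := F.left b hb r hr hf.2
  have hrr := F.right b hb r hr hf.1
  have hc := F.center b hb r hr
  have hfv := flip_valid F hb hf
  have hl' := F.left _ hfv r hr (fun q hq hqr => by
    rw [flip_ne b (by omega)]; exact hf.2 q hq hqr)
  have hr' := F.right _ hfv r hr (fun h => by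
    rw [flip_ne b (by omega)]; exact hf.1 h)
  have hc' := F.center _ hfv r hr
  rw [flip_same, Bool.not_not] at hl' hr'
  rw [flip_same] at hc'
  constructor
  · constructor
    · rw [hl, hrr]
    · rw [hl, hc]; exact H.symm _ _ (F.hE r hr _)
  · funext k
    by_cases h0 : k = r
    · subst h0; rw [mv_left, hl', hc]
    · by_cases h1 : k = r + 1
      · subst h1; rw [mv_center, hc', hl]
      · by_cases h2 : k = r + 2
        · subst h2; rw [mv_right, hr', hc]
        · rw [mv_other _ h0 h1 h2]
          apply F.loc _ _ hfv hb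
          intro p _ hp1 hp2
          apply flip_ne
          omega

lemma act_flippable (F : Frame E C N) (H : GoodClass E C N) {b : ℕ → Bool}
    (hb : Valid F.J F.Lm F.Rm b) {r : ℕ} (hr : r ∈ F.J)
    (hact : Act E (F.W b) r) : Flippable F b r := by
  obtain ⟨h1, h2⟩ := hact
  have hc := F.center b hb r hr
  have hEr := F.hE r hr (b r)
  constructor
  · intro hr2
    by_contra hne
    have hL : b r = F.Lm r := by
      have := hb r hr hr2
      tauto
    have hl := F.left b hb (r + 2) hr2 (fun q _ hqr => by
      have : q = r := by omega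
      rw [this]; exact hL)
    rw [bool_ne hne, Bool.not_not] at hl
    have hmid := F.mid r hr hr2
    rw [← hL] at hmid
    have hE2 := F.hE (r + 2) hr2 (F.Rm r)
    rw [← hmid] at hE2
    rw [h1, hl, hc] at h2
    exact H.tri _ _ _ h2 hEr hE2
  · intro q hq hqr
    by_contra hne
    have hR : b r = F.Rm q := by
      have := hb q hq (by rw [hqr]; exact hr)
      rw [hqr] at this
      tauto
    have hrr := F.right b hb q hq (fun _ => by rw [hqr]; exact hR)
    rw [bool_ne hne, Bool.not_not, hqr] at hrr
    have hmid := F.mid q hq (by rw [hqr]; exact hr)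
    rw [hqr, ← hR] at hmid
    have hE2 := F.hE q hq (F.Lm q)
    rw [hmid] at hE2
    rw [hrr, hc] at h2
    exact H.tri _ _ _ h2 hEr hE2

/-- Between two different valid states some differing coordinate can be flipped. -/
lemma exists_flippable (F : Frame E C N) {a b : ℕ → Bool}
    (ha : Valid F.J F.Lm F.Rm a) (hb : Valid F.J F.Lm F.Rm b)
    (hne : ∃ p ∈ F.J, a p ≠ b p) : ∃ r ∈ F.J, a r ≠ b r ∧ Flippable F a r := by
  classical
  set D := F.J.filter (fun p => a p ≠ b p) with hD
  have hDne : D.Nonempty := by
    obtain ⟨p, hp, hp2⟩ := hne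
    exact ⟨p, Finset.mem_filter.2 ⟨hp, hp2⟩⟩
  set D' := D.filter (fun p => p + 2 ∈ F.J → a (p + 2) = F.Rm p) with hD'
  have hD'ne : D'.Nonempty := by
    refine ⟨D.max' hDne, ?_⟩
    have hmem := D.max'_mem hDne
    rw [hD', Finset.mem_filter]
    refine ⟨hmem, ?_⟩
    intro h2
    by_contra hR
    have hmem' := (Finset.mem_filter.1 hmem)
    have hL : a (D.max' hDne) = F.Lm (D.max' hDne) := by
      have := ha _ hmem'.1 h2
      tauto
    have hbL : b (D.max' hDne) ≠ F.Lm (D.max' hDne) := by
      rw [← hL]; exact fun h => hmem'.2 h.symm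
    have hbR : b (D.max' hDne + 2) = F.Rm (D.max' hDne) := by
      have := hb _ hmem'.1 h2
      tauto
    have : D.max' hDne + 2 ∈ D := Finset.mem_filter.2 ⟨h2, by rw [hbR]; exact hR⟩
    have := D.le_max' _ this
    omega
  have hmin := D'.min'_mem hD'ne
  set r := D'.min' hD'ne with hr
  obtain ⟨hrD, hropen⟩ := Finset.mem_filter.1 hmin
  obtain ⟨hrJ, hrne⟩ := Finset.mem_filter.1 hrD
  refine ⟨r, hrJ, hrne, hropen, ?_⟩
  intro q hq hqr
  by_contra hL
  have haR : a r = F.Rm q := by
    have := ha q hq (by rw [hqr]; exact hrJ)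
    rw [hqr] at this
    tauto
  have hbR : b r ≠ F.Rm q := by rw [← haR]; exact fun h => hrne h.symm
  have hbL : b q = F.Lm q := by
    have := hb q hq (by rw [hqr]; exact hrJ)
    rw [hqr] at this
    tauto
  have hqD' : q ∈ D' := by
    rw [hD', Finset.mem_filter, hD, Finset.mem_filter]
    refine ⟨⟨hq, by rw [hbL]; exact hL⟩, ?_⟩
    intro _
    rw [hqr]; exact haR
  have := D'.min'_le _ hqD'
  omega

/-- An antipodal pair of valid states. -/
def anti (Lm Rm : ℕ → Bool) : ℕ → Bool
  | 0 => true
  | 1 => true
  | k + 2 => if anti Lm Rm k = Lm k then !Rm k else Rm k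

lemma anti_valid (J : Finset ℕ) (Lm Rm : ℕ → Bool) : Valid J Lm Rm (anti Lm Rm) := by
  intro p _ _
  by_cases h : anti Lm Rm p = Lm p
  · left; exact h
  · right
    rw [anti, if_neg h]

lemma anti_valid' (J : Finset ℕ) (Lm Rm : ℕ → Bool) :
    Valid J Lm Rm (fun k => !anti Lm Rm k) := by
  intro p _ _
  by_cases h : anti Lm Rm p = Lm p
  · right
    show (!anti Lm Rm (p + 2)) = _
    rw [anti, if_pos h, Bool.not_not]
  · left
    show (!anti Lm Rm p) = _
    rw [bool_ne h, Bool.not_not]

/-- The number of centres in `J` at which two words differ. -/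
noncomputable def Dc (J : Finset ℕ) (w w' : ℕ → L) : ℕ := by
  classical exact (J.filter (fun p => w (p + 1) ≠ w' (p + 1))).card

/-- The abstract main theorem. -/
theorem abstract_main (H : GoodClass E C N) : ∃ J : Finset ℕ,
    (∀ w ∈ C, ∀ w' ∈ C, w ≠ w' → ∃ w1, Mv E w w1 ∧ Dc J w1 w' < Dc J w w') ∧
    (∀ w ∈ C, ∀ w1, Mv E w w1 → Dc J w w1 ≤ 1) ∧
    ∃ u ∈ C, ∃ v ∈ C, ∀ w ∈ C, Dc J u w + Dc J w v = Dc J u v := by
  classical
  obtain ⟨F, hF⟩ := exists_closed_frame H
  -- every word of C comes from a valid state
  have hall : ∀ w ∈ C, ∃ b, Valid F.J F.Lm F.Rm b ∧ F.W b = w := by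
    intro w hw
    set b0 := anti F.Lm F.Rm
    have hb0 : Valid F.J F.Lm F.Rm b0 := anti_valid _ _ _
    have hconn := H.conn _ (F.inC b0 hb0) w hw
    induction hconn with
    | refl => exact ⟨b0, hb0, rfl⟩
    | @tail y z hyz hstep ih =>
      have hy : y ∈ C := by
        clear ih hstep hw
        induction hyz with
        | refl => exact F.inC b0 hb0
        | tail _ hst ih2 => exact H.closed _ ih2 _ hst
      obtain ⟨b, hb, rfl⟩ := ih hy
      obtain ⟨p, hact, rfl⟩ := hstep
      have hp := hF b hb p hact
      have hfl := act_flippable F H hb hp hact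
      exact ⟨flip b p, flip_valid F hb hfl, (flip_act F H hb hp hfl).2⟩
  have hcne : ∀ p ∈ F.J, ∀ x, F.c p x ≠ F.c p (!x) := fun p hp x h => H.irr (F.hE p hp x) h
  have hcinj : ∀ p ∈ F.J, ∀ x y, F.c p x = F.c p y → x = y := by
    intro p hp x y h
    by_contra hxy
    rw [bool_ne hxy] at h
    exact hcne p hp y h.symm
  refine ⟨F.J, ?_, ?_, ?_⟩
  · intro w hw w' hw' hww
    obtain ⟨a, ha, rfl⟩ := hall w hw
    obtain ⟨b, hb, rfl⟩ := hall w' hw'
    have hdiff : ∃ p ∈ F.J, a p ≠ b p := by
      by_contra hcon
      push Not at hcon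
      apply hww
      funext k
      exact F.loc a b ha hb k (fun p hp _ _ => hcon p hp)
    obtain ⟨r, hr, hrne, hfl⟩ := exists_flippable F ha hb hdiff
    obtain ⟨hact, hW⟩ := flip_act F H ha hr hfl
    refine ⟨mv (F.W a) r, ⟨r, hact, rfl⟩, ?_⟩
    rw [← hW]
    have hfv := flip_valid F ha hfl
    unfold Dc
    apply Finset.card_lt_card
    refine ⟨?_, ?_⟩
    · intro p hp
      rw [Finset.mem_filter] at hp ⊢
      obtain ⟨hpJ, hpne⟩ := hp
      refine ⟨hpJ, ?_⟩
      rw [F.center _ hfv p hpJ, F.center _ hb p hpJ] at hpne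
      rw [F.center _ ha p hpJ, F.center _ hb p hpJ]
      by_cases hpr : p = r
      · subst hpr
        intro h
        exact hrne (hcinj p hpJ _ _ h)
      · rwa [flip_ne a hpr] at hpne
    · intro hsub
      have h1 : r ∈ F.J.filter (fun p => F.W a (p + 1) ≠ F.W b (p + 1)) := by
        rw [Finset.mem_filter]
        refine ⟨hr, ?_⟩
        rw [F.center _ ha r hr, F.center _ hb r hr]
        intro h
        exact hrne (hcinj r hr _ _ h)
      have h2 := hsub h1
      rw [Finset.mem_filter] at h2
      apply h2.2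
      rw [F.center _ hfv r hr, F.center _ hb r hr, flip_same]
      congr 1
      have := bool_ne hrne
      rw [this, Bool.not_not]
  · intro w hw w1 hmv
    obtain ⟨a, ha, rfl⟩ := hall w hw
    obtain ⟨r, hact, rfl⟩ := hmv
    have hr := hF a ha r hact
    unfold Dc
    have : F.J.filter (fun p => F.W a (p + 1) ≠ mv (F.W a) r (p + 1)) ⊆ {r} := by
      intro p hp
      rw [Finset.mem_filter] at hp
      rw [Finset.mem_singleton]
      by_contra hpr
      apply hp.2
      rw [mv_other]
      · intro h
        exact F.sep p hp.1 (by rw [h]; exact hr)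
      · omega
      · intro h
        have : p = r + 1 := by omega
        exact F.sep r hr (by rw [← this]; exact hp.1)
    simpa using Finset.card_le_card this
  · have hu := anti_valid F.J F.Lm F.Rm
    have hv := anti_valid' F.J F.Lm F.Rm
    refine ⟨_, F.inC _ hu, _, F.inC _ hv, ?_⟩
    intro w hw
    obtain ⟨b, hb, rfl⟩ := hall w hw
    unfold Dc
    have e1 : F.J.filter (fun p => F.W (anti F.Lm F.Rm) (p + 1) ≠
        F.W (fun k => !anti F.Lm F.Rm k) (p + 1)) = F.J := by
      apply Finset.filter_true_of_mem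
      intro p hp
      rw [F.center _ hu p hp, F.center _ hv p hp]
      exact hcne p hp _
    have e2 : F.J.filter (fun p => F.W b (p + 1) ≠ F.W (fun k => !anti F.Lm F.Rm k) (p + 1)) =
        F.J.filter (fun p => ¬ (F.W (anti F.Lm F.Rm) (p + 1) ≠ F.W b (p + 1))) := by
      apply Finset.filter_congr
      intro p hp
      rw [F.center _ hu p hp, F.center _ hv p hp, F.center _ hb p hp, not_not]
      constructor
      · intro h
        congr 1
        by_contra hne
        apply h
        rw [bool_ne (fun h' => hne h'.symm)]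
      · intro h h'
        have := hcinj p hp _ _ h
        rw [this] at h'
        exact hcne p hp _ h'
    rw [e1, e2]
    exact Finset.card_filter_add_card_filter_not _

end Abstract

/-! ## Transfer to words -/

section Words

variable {B W : Type*} [Group W] {M : CoxeterMatrix B}

/-- The relation `m(s,t) = 3` on `Option B`. -/
def EO (M : CoxeterMatrix B) (x y : Option B) : Prop :=
  ∃ s t, x = some s ∧ y = some t ∧ M s t = 3

/-- The word as a function. -/
def fn (α : List B) : ℕ → Option B := fun k => α[k]?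

lemma fn_inj {α β : List B} (h : fn α = fn β) : α = β :=
  List.ext_getElem? (fun k => congrFun h k)

lemma BraidMove.symm {α β : List B} (h : BraidMove M α β) : BraidMove M β α := by
  obtain ⟨x, y, s, t, h1, h2, h3⟩ := h
  exact ⟨x, y, t, s, by rw [M.symmetric]; exact h1, h3, h2⟩

lemma BraidMove.length_eq {α β : List B} (h : BraidMove M α β) : β.length = α.length := by
  obtain ⟨x, y, s, t, _, rfl, rfl⟩ := h
  simp

lemma getElem?_three (x y : List B) (a b c : B) (k : ℕ) :
    (x ++ [a, b, c] ++ y)[k]? =
      if k = x.length then some a else if k = x.length + 1 then some b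
      else if k = x.length + 2 then some c
      else if k < x.length then x[k]? else y[k - (x.length + 3)]? := by
  rcases lt_trichotomy k x.length with h | h | h
  · rw [if_neg (by omega), if_neg (by omega), if_neg (by omega), if_pos h, List.append_assoc,
      List.getElem?_append_left h]
  · subst h
    rw [if_pos rfl, List.append_assoc, List.getElem?_append_right (le_refl _)]
    simp
  · rw [if_neg (by omega)]
    by_cases h1 : k = x.length + 1
    · rw [if_pos h1, h1, List.append_assoc, List.getElem?_append_right (by omega)]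
      simp
    · rw [if_neg h1]
      by_cases h2 : k = x.length + 2
      · rw [if_pos h2, h2, List.append_assoc, List.getElem?_append_right (by omega)]
        simp
      · rw [if_neg h2, if_neg (by omega), List.getElem?_append_right (by simp; omega)]
        simp

lemma BraidMove.mv {α β : List B} (h : BraidMove M α β) : Mv (EO M) (fn α) (fn β) := by
  obtain ⟨x, y, s, t, h1, rfl, rfl⟩ := h
  refine ⟨x.length, ⟨?_, s, t, ?_, ?_, h1⟩, ?_⟩
  · simp only [fn, getElem?_three]
    simp
  · simp only [fn, getElem?_three]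
    simp
  · simp only [fn, getElem?_three]
    simp
  · funext k
    simp only [fn, GeodeticNumberTwo.mv, getElem?_three]
    by_cases h0 : k = x.length
    · subst h0; simp
    · by_cases h1 : k = x.length + 1
      · subst h1; simp
      · by_cases h2 : k = x.length + 2
        · subst h2; simp
        · simp [h0, h1, h2]

lemma split_three {α : List B} {p : ℕ} {a b c : B} (h0 : α[p]? = some a)
    (h1 : α[p + 1]? = some b) (h2 : α[p + 2]? = some c) :
    α = α.take p ++ [a, b, c] ++ α.drop (p + 3) := by
  have hlen : p + 2 < α.length := by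
    rw [List.getElem?_eq_some_iff] at h2
    exact h2.1
  apply List.ext_getElem?
  intro k
  rw [getElem?_three, List.length_take, Nat.min_eq_left (by omega)]
  by_cases k0 : k = p
  · rw [if_pos k0, k0, h0]
  · rw [if_neg k0]
    by_cases k1 : k = p + 1
    · rw [if_pos k1, k1, h1]
    · rw [if_neg k1]
      by_cases k2 : k = p + 2
      · rw [if_pos k2, k2, h2]
      · rw [if_neg k2]
        by_cases k3 : k < p
        · rw [if_pos k3, List.getElem?_take_of_lt k3]
        · rw [if_neg k3, List.getElem?_drop]
          congr 1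
          omega

lemma mv_lift {α : List B} {g : ℕ → Option B} (h : Mv (EO M) (fn α) g) :
    ∃ β, BraidMove M α β ∧ fn β = g := by
  obtain ⟨p, ⟨h1, s, t, h2, h3, h4⟩, rfl⟩ := h
  have hs2 : α[p + 2]? = some s := by
    have : fn α p = fn α (p + 2) := h1
    rw [h2] at this
    exact this.symm
  have hsplit := split_three (α := α) (p := p) h2 h3 hs2
  have hbm : BraidMove M α (α.take p ++ [t, s, t] ++ α.drop (p + 3)) :=
    ⟨_, _, s, t, h4, hsplit, rfl⟩
  refine ⟨_, hbm, ?_⟩
  have hlen : p + 2 < α.length := by
    rw [List.getElem?_eq_some_iff] at hs2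
    exact hs2.1
  funext k
  simp only [fn, GeodeticNumberTwo.mv, getElem?_three, List.length_take,
    Nat.min_eq_left (show p ≤ α.length by omega)]
  by_cases k0 : k = p
  · subst k0; simp; exact h3.symm
  · by_cases k1 : k = p + 1
    · subst k1; simp; exact h2.symm
    · by_cases k2 : k = p + 2
      · subst k2; simp; exact h3.symm
      · have k4 : ¬ (k = p ∨ k = p + 2) := by omega
        by_cases k3 : k < p
        · rw [if_neg k0, if_neg k1, if_neg k2, if_pos k3, if_neg k4, if_neg k1,
            List.getElem?_take_of_lt k3]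
        · rw [if_neg k0, if_neg k1, if_neg k2, if_neg k3, if_neg k4, if_neg k1,
            List.getElem?_drop]
          congr 1
          omega

lemma class_symm {α β : List B} (h : Relation.ReflTransGen (BraidMove M) α β) :
    Relation.ReflTransGen (BraidMove M) β α := by
  induction h with
  | refl => exact .refl
  | tail _ hst ih => exact Relation.ReflTransGen.head hst.symm ih

lemma class_length {α β : List B} (h : Relation.ReflTransGen (BraidMove M) α β) :
    β.length = α.length := by
  induction h with
  | refl => rfl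
  | tail _ hst ih => rw [hst.length_eq, ih]

variable (cs : CoxeterSystem M W)

lemma sts_eq {s t : B} (h : M s t = 3) :
    cs.simple s * cs.simple t * cs.simple s = cs.simple t * cs.simple s * cs.simple t := by
  have h1 := cs.simple_mul_simple_pow s t
  rw [h] at h1
  have hs := cs.simple_mul_simple_self s
  have ht := cs.simple_mul_simple_self t
  have h2 : (cs.simple s * cs.simple t * cs.simple s) *
      (cs.simple t * cs.simple s * cs.simple t) = 1 := by
    rw [← h1]; simp only [pow_succ, pow_zero, one_mul, mul_assoc]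
  have h3 : (cs.simple t * cs.simple s * cs.simple t) *
      (cs.simple t * cs.simple s * cs.simple t) = 1 := by
    calc _ = cs.simple t * cs.simple s * (cs.simple t * cs.simple t) * cs.simple s *
          cs.simple t := by group
      _ = 1 := by rw [ht, mul_one, mul_assoc (cs.simple t), hs, mul_one, ht]
  exact mul_right_cancel (h2.trans h3.symm)

lemma BraidMove.prod {α β : List B} (h : BraidMove M α β) :
    cs.wordProd β = cs.wordProd α := by
  obtain ⟨x, y, s, t, h1, rfl, rfl⟩ := h
  have := sts_eq cs h1
  simp only [cs.wordProd_append, cs.wordProd_cons, cs.wordProd_nil, mul_one]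
  congr 2
  rw [← mul_assoc, ← mul_assoc, this]

lemma class_reduced {α β : List B} (hα : cs.IsReduced α)
    (h : Relation.ReflTransGen (BraidMove M) α β) : cs.IsReduced β := by
  have h1 : cs.wordProd β = cs.wordProd α := by
    induction h with
    | refl => rfl
    | tail _ hst ih => rw [hst.prod cs, ih]
  unfold CoxeterSystem.IsReduced at hα ⊢
  rw [h1, hα, class_length h]

lemma not_stst {β : List B} (hβ : cs.IsReduced β) {p : ℕ} {s t : B} (h : M s t = 3)
    (h0 : β[p]? = some s) (h1 : β[p + 1]? = some t) (h2 : β[p + 2]? = some s)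
    (h3 : β[p + 3]? = some t) : False := by
  have hs := split_three (α := β) (p := p) h0 h1 h2
  have hlen : p + 3 < β.length := by
    rw [List.getElem?_eq_some_iff] at h3
    exact h3.1
  have hd : β.drop (p + 3) = t :: β.drop (p + 4) := by
    have h4 : β[p + 3] = t := by
      rw [List.getElem?_eq_some_iff] at h3
      exact h3.2
    rw [List.drop_eq_getElem_cons hlen, h4]
  rw [hd] at hs
  have hprod : cs.wordProd β = cs.wordProd (β.take p ++ [t, s] ++ β.drop (p + 4)) := by
    conv_lhs => rw [hs]
    simp only [cs.wordProd_append, cs.wordProd_cons, cs.wordProd_nil, mul_one]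
    have e := sts_eq cs h
    have ht := cs.simple_mul_simple_self t
    have e2 : cs.simple s * (cs.simple t * cs.simple s) * cs.simple t =
        cs.simple t * cs.simple s := by
      rw [← mul_assoc, e, mul_assoc, ht, mul_one]
    calc _ = cs.wordProd (β.take p) * (cs.simple s * (cs.simple t * cs.simple s) * cs.simple t) *
          cs.wordProd (β.drop (p + 4)) := by group
      _ = _ := by rw [e2]
  have hle := cs.length_wordProd_le (β.take p ++ [t, s] ++ β.drop (p + 4))
  rw [← hprod, hβ.eq] at hle
  simp only [List.length_append, List.length_take, List.length_cons, List.length_nil,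
    List.length_drop] at hle
  omega

lemma goodClass (hM : TypeLambda M) {α : List B} (hα : cs.IsReduced α) :
    GoodClass (EO M) (fn '' braidClass M α) α.length where
  symm := by
    rintro a b ⟨s, t, rfl, rfl, h⟩
    exact ⟨t, s, rfl, rfl, by rw [M.symmetric]; exact h⟩
  tri := by
    rintro a b c ⟨s, t, rfl, rfl, h1⟩ ⟨t', u, ht, rfl, h2⟩ ⟨s', u', hs, hu, h3⟩
    rw [Option.some.injEq] at ht hs hu
    subst ht; subst hs; subst hu
    exact hM.triangleFree _ _ _ ⟨h1, h2, h3⟩
  closed := by
    rintro _ ⟨β, hβ, rfl⟩ w' hw'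
    obtain ⟨γ, hγ, rfl⟩ := mv_lift hw'
    exact ⟨γ, Relation.ReflTransGen.tail hβ hγ, rfl⟩
  conn := by
    rintro _ ⟨β, hβ, rfl⟩ _ ⟨γ, hγ, rfl⟩
    have : Relation.ReflTransGen (BraidMove M) β γ := (class_symm hβ).trans hγ
    clear hγ
    induction this with
    | refl => exact .refl
    | tail _ hst ih => exact ih.tail hst.mv
  good := by
    rintro _ ⟨β, hβ, rfl⟩ p h1 h2 ⟨s, t, h3, h4, h5⟩
    exact not_stst cs (class_reduced cs hα hβ) h5 h3 h4 (h1.symm.trans h3) (h2.symm.trans h4)
  bdd := by
    rintro _ ⟨β, hβ, rfl⟩ p ⟨_, s, t, h3, _, _⟩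
    have := (List.getElem?_eq_some_iff.1 h3).1
    rw [← class_length hβ]
    exact this
  ne := ⟨_, α, Relation.ReflTransGen.refl, rfl⟩

end Words

/-! ## Distances in the braid graph -/

section Graph

variable {L : Type*}

lemma Dc_self (J : Finset ℕ) (w : ℕ → L) : Dc J w w = 0 := by
  simp [Dc]

lemma Dc_tri (J : Finset ℕ) (w w' w'' : ℕ → L) : Dc J w w'' ≤ Dc J w w' + Dc J w' w'' := by
  classical
  unfold Dc
  refine le_trans (Finset.card_le_card ?_) (Finset.card_union_le _ _)
  intro p hp
  rw [Finset.mem_filter] at hp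
  rw [Finset.mem_union, Finset.mem_filter, Finset.mem_filter]
  by_cases h : w (p + 1) = w' (p + 1)
  · right; exact ⟨hp.1, by rw [← h]; exact hp.2⟩
  · left; exact ⟨hp.1, h⟩

/-- Abstract criterion for `interval u v` to be everything. -/
lemma interval_univ {V : Type*} (G : SimpleGraph V) (D : V → V → ℕ)
    (hself : ∀ u, D u u = 0) (htri : ∀ u v w, D u w ≤ D u v + D v w)
    (hadj : ∀ u v, G.Adj u v → D u v ≤ 1)
    (hstep : ∀ u v, u ≠ v → ∃ u', G.Adj u u' ∧ D u' v < D u v)
    {u v : V} (huv : ∀ w, D u w + D w v = D u v) : interval G u v = Set.univ := by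
  have hwalk : ∀ n u v, D u v ≤ n → ∃ p : G.Walk u v, p.length ≤ D u v := by
    intro n
    induction n with
    | zero =>
      intro u v h
      by_cases huv : u = v
      · subst huv; exact ⟨SimpleGraph.Walk.nil, by simp⟩
      · obtain ⟨u', _, h2⟩ := hstep u v huv
        omega
    | succ n ih =>
      intro u v h
      by_cases huv : u = v
      · subst huv; exact ⟨SimpleGraph.Walk.nil, by simp⟩
      · obtain ⟨u', h1, h2⟩ := hstep u v huv
        obtain ⟨p, hp⟩ := ih u' v (by omega)
        refine ⟨SimpleGraph.Walk.cons h1 p, ?_⟩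
        rw [SimpleGraph.Walk.length_cons]
        omega
  have hlow : ∀ u v (p : G.Walk u v), D u v ≤ p.length := by
    intro u v p
    induction p with
    | nil => simp [hself]
    | @cons a b c hab q ih =>
      have := htri a b c
      have := hadj a b hab
      rw [SimpleGraph.Walk.length_cons]
      omega
  have hdist : ∀ u v, G.dist u v = D u v := by
    intro u v
    obtain ⟨p, hp⟩ := hwalk _ u v le_rfl
    have h1 := SimpleGraph.dist_le p
    have hre : G.Reachable u v := ⟨p⟩
    obtain ⟨q, hq⟩ := hre.exists_walk_length_eq_dist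
    have h2 := hlow u v q
    omega
  rw [Set.eq_univ_iff_forall]
  intro w
  obtain ⟨p, hp⟩ := hwalk _ u w le_rfl
  obtain ⟨q, hq⟩ := hwalk _ w v le_rfl
  have hp' := hlow u w p
  have hq' := hlow w v q
  refine ⟨p.append q, ?_, ?_⟩
  · rw [SimpleGraph.Walk.length_append, hdist, ← huv w]
    omega
  · rw [SimpleGraph.Walk.mem_support_append_iff]
    left
    exact p.end_mem_support

end Graph

/-- **MP_31c3fe_co, Q1 (true).**  For every Coxeter system of type `Λ` (simply laced, triangle
free) and every reduced expression `α` whose braid class has at least two elements, the geodetic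
number of the braid graph of `α` equals `2`; in particular there are `u, v` in the braid class with
`I(u,v) = [α]`. -/
theorem result {B W : Type*} [Group W] {M : CoxeterMatrix B} (cs : CoxeterSystem M W)
    (hM : TypeLambda M) (α : List B) (hα : cs.IsReduced α)
    (hne : (braidClass M α).Nontrivial) :
    geodeticNumber (braidGraph M α) = 2 ∧
      ∃ u v : braidClass M α, interval (braidGraph M α) u v = Set.univ := by
  classical
  obtain ⟨J, hstep, hadj, u0, hu0, v0, hv0, huv⟩ := abstract_main (goodClass cs hM hα)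
  obtain ⟨u, hu, rfl⟩ := hu0
  obtain ⟨v, hv, rfl⟩ := hv0
  have hint : interval (braidGraph M α) ⟨u, hu⟩ ⟨v, hv⟩ = Set.univ := by
    apply interval_univ (braidGraph M α) (fun x y => Dc J (fn x.1) (fn y.1))
    · intro x; exact Dc_self _ _
    · intro x y z; exact Dc_tri _ _ _ _
    · intro x y hxy
      have : BraidMove M x.1 y.1 := by
        rcases (SimpleGraph.fromRel_adj _ _ _).1 hxy with ⟨_, h | h⟩
        · exact h
        · exact h.symm
      exact hadj _ ⟨x.1, x.2, rfl⟩ _ this.mv
    · intro x y hxy
      obtain ⟨w1, h1, h2⟩ := hstep _ ⟨x.1, x.2, rfl⟩ _ ⟨y.1, y.2, rfl⟩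
        (fun h => hxy (Subtype.ext (fn_inj h)))
      obtain ⟨β, hβ, rfl⟩ := mv_lift h1
      refine ⟨⟨β, Relation.ReflTransGen.tail x.2 hβ⟩, ?_, h2⟩
      rw [braidGraph, SimpleGraph.fromRel_adj]
      refine ⟨?_, Or.inl hβ⟩
      intro h
      have h3 : x.1 = β := congrArg Subtype.val h
      rw [← h3] at h2
      exact lt_irrefl _ h2
    · intro w
      exact huv _ ⟨w.1, w.2, rfl⟩
  refine ⟨?_, _, _, hint⟩
  obtain ⟨x, hx, y, hy, hxy⟩ := hne
  have huvne : (⟨u, hu⟩ : braidClass M α) ≠ ⟨v, hv⟩ := by
    intro h
    have huv' : u = v := congrArg Subtype.val h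
    subst huv'
    have hsub : ∀ w : braidClass M α, w = ⟨u, hu⟩ := by
      intro w
      have hw : w ∈ interval (braidGraph M α) ⟨u, hu⟩ ⟨u, hu⟩ := by rw [hint]; trivial
      obtain ⟨p, hp, hwp⟩ := hw
      rw [SimpleGraph.dist_self] at hp
      have hnil := SimpleGraph.Walk.length_eq_zero_iff.1 hp
      rw [SimpleGraph.Walk.nil_iff_support_eq.1 hnil] at hwp
      simpa using hwp
    have h1 := hsub ⟨x, hx⟩
    have h2 := hsub ⟨y, hy⟩
    exact hxy (congrArg Subtype.val (h1.trans h2.symm))
  apply le_antisymm
  · apply Nat.sInf_le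
    refine ⟨{⟨u, hu⟩, ⟨v, hv⟩}, Finset.card_pair huvne, ?_⟩
    rw [Set.eq_univ_iff_forall]
    intro w
    refine ⟨⟨u, hu⟩, by simp, ⟨v, hv⟩, by simp, ?_⟩
    rw [hint]; trivial
  · apply le_csInf
    · refine ⟨_, {⟨u, hu⟩, ⟨v, hv⟩}, rfl, ?_⟩
      rw [Set.eq_univ_iff_forall]
      intro w
      refine ⟨⟨u, hu⟩, by simp, ⟨v, hv⟩, by simp, ?_⟩
      rw [hint]; trivial
    · rintro k ⟨X, hX, hX2⟩
      by_contra hk
      have hk' : X.card ≤ 1 := by omega
      haveI : Nonempty (braidClass M α) := ⟨⟨x, hx⟩⟩
      rw [Finset.card_le_one_iff_subset_singleton] at hk'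
      have hall : ∀ w : braidClass M α, ∃ z ∈ X, w = z := by
        intro w
        have hw : w ∈ geodeticClosure (braidGraph M α) (X : Set _) := by rw [hX2]; trivial
        obtain ⟨a, ha, b, hb, p, hp, hwp⟩ := hw
        obtain ⟨z, hz⟩ := hk'
        have ha' : a = z := Finset.mem_singleton.1 (hz ha)
        have hb' : b = z := Finset.mem_singleton.1 (hz hb)
        subst ha'
        subst hb'
        rw [SimpleGraph.dist_self] at hp
        have hnil := SimpleGraph.Walk.length_eq_zero_iff.1 hp
        rw [SimpleGraph.Walk.nil_iff_support_eq.1 hnil] at hwp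
        exact ⟨_, ha, by simpa using hwp⟩
      obtain ⟨z, hz⟩ := hk'
      obtain ⟨z1, hz1, e1⟩ := hall ⟨x, hx⟩
      obtain ⟨z2, hz2, e2⟩ := hall ⟨y, hy⟩
      have h1 : z1 = z := Finset.mem_singleton.1 (hz hz1)
      have h2 : z2 = z := Finset.mem_singleton.1 (hz hz2)
      have h3 : (⟨x, hx⟩ : braidClass M α) = ⟨y, hy⟩ := by rw [e1, e2, h1, h2]
      exact hxy (congrArg Subtype.val h3)

end Pool.Agent.Results.MP_31c3fe_co.GeodeticNumberTwo
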